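import Mathlib
import Pool.Agent.H7.OPP.Stmts

/-!
# OPP, module FRC: frames at close points
-/

set_option autoImplicit false

open scoped Topology ComplexConjugate Uniformity

namespace Pool.OPP

noncomputable section

theorem FRC_geo (e a b : EuclideanSpace ℂ (Fin 3)) (he : ‖e‖ = 1) (ha : ‖a‖ = 1) (hb : ‖b‖ = 1)
    (h1 : 4 / 5 ≤ ‖inner ℂ e a‖) (h2 : 4 / 5 ≤ ‖inner ℂ e b‖) : 7 / 25 ≤ ‖inner ℂ a b‖ := by
  have hee : inner ℂ e e = (1 : ℂ) := by
    rw [inner_self_eq_norm_sq_to_K, he]; norm_num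
  have key : ∀ u v : EuclideanSpace ℂ (Fin 3),
      inner ℂ (u - (inner ℂ e u : ℂ) • e) (v - (inner ℂ e v : ℂ) • e) =
        inner ℂ u v - conj (inner ℂ e u : ℂ) * inner ℂ e v := by
    intro u v
    rw [inner_sub_left, inner_sub_right, inner_sub_right, inner_smul_left, inner_smul_left,
      inner_smul_right, inner_smul_right, hee, ← inner_conj_symm u e]
    ring
  have nrm : ∀ u : EuclideanSpace ℂ (Fin 3), ‖u‖ = 1 → 4 / 5 ≤ ‖inner ℂ e u‖ →
      ‖u - (inner ℂ e u : ℂ) • e‖ ≤ 3 / 5 := by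
    intro u hu h
    have h3 : ((‖u - (inner ℂ e u : ℂ) • e‖ : ℂ)) ^ 2 = 1 - ((‖(inner ℂ e u : ℂ)‖ : ℂ)) ^ 2 := by
      have := key u u
      rw [inner_self_eq_norm_sq_to_K, inner_self_eq_norm_sq_to_K, hu, mul_comm,
        RCLike.mul_conj] at this
      simpa using this
    have h4 : ‖u - (inner ℂ e u : ℂ) • e‖ ^ 2 = 1 - ‖(inner ℂ e u : ℂ)‖ ^ 2 := by
      exact_mod_cast h3
    have h5 := norm_nonneg (u - (inner ℂ e u : ℂ) • e)
    nlinarith
  have h3 := key a b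
  have h4 : ‖inner ℂ (a - (inner ℂ e a : ℂ) • e) (b - (inner ℂ e b : ℂ) • e)‖ ≤ 3 / 5 * (3 / 5) := by
    refine (norm_inner_le_norm _ _).trans ?_
    exact mul_le_mul (nrm a ha h1) (nrm b hb h2) (norm_nonneg _) (by norm_num)
  have h5 : inner ℂ a b = inner ℂ (a - (inner ℂ e a : ℂ) • e) (b - (inner ℂ e b : ℂ) • e) +
      conj (inner ℂ e a : ℂ) * inner ℂ e b := by
    rw [h3]; ring
  have h6 : ‖conj (inner ℂ e a : ℂ) * inner ℂ e b‖ = ‖(inner ℂ e a : ℂ)‖ * ‖(inner ℂ e b : ℂ)‖ := by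
    rw [norm_mul, RCLike.norm_conj]
  have h7 : ‖conj (inner ℂ e a : ℂ) * inner ℂ e b‖ -
      ‖inner ℂ (a - (inner ℂ e a : ℂ) • e) (b - (inner ℂ e b : ℂ) • e)‖ ≤ ‖inner ℂ a b‖ := by
    have h8 : conj (inner ℂ e a : ℂ) * inner ℂ e b = inner ℂ a b -
      inner ℂ (a - (inner ℂ e a : ℂ) • e) (b - (inner ℂ e b : ℂ) • e) := by
      rw [h3]; ring
    have := norm_sub_le (inner ℂ a b : ℂ)
      (inner ℂ (a - (inner ℂ e a : ℂ) • e) (b - (inner ℂ e b : ℂ) • e))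
    rw [← h8] at this
    linarith
  have h8 : 4 / 5 * (4 / 5) ≤ ‖(inner ℂ e a : ℂ)‖ * ‖(inner ℂ e b : ℂ)‖ :=
    mul_le_mul h1 h2 (by norm_num) (norm_nonneg _)
  rw [h6] at h7
  linarith

theorem FRC_rank (M : Matrix II II ℂ) (η ξ : II → ℂ) (hη : ip η η = 1)
    (hM : ∀ a b, M a b = η a * conj (η b)) (hξ : ip ξ ξ = 1) (hf : M.mulVec ξ = ξ) (a b : II) :
    ξ a * conj (ξ b) = M a b := by
  have h1 : ∀ a, ξ a = ip η ξ * η a := by
    intro a
    conv_lhs => rw [← hf]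
    simp only [Matrix.mulVec, dotProduct, hM, ip, Finset.sum_mul]
    exact Finset.sum_congr rfl fun b _ => by ring
  have h2 : ip ξ ξ = conj (ip η ξ) * ip η ξ * ip η η := by
    conv_lhs => rw [ip]
    conv_rhs => rw [ip, ip, Finset.mul_sum]
    refine Finset.sum_congr rfl fun i _ => ?_
    have := h1 i
    unfold ip at this
    rw [this, map_mul]
    ring
  rw [hξ, hη, mul_one] at h2
  rw [hM, h1 a, h1 b, map_mul]
  linear_combination (η a * conj (η b)) * (-h2)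

theorem FRC_gE (hG : SGen) (v : Fin (hh + 1)) : gE (bas v) (bas v) ∈ AA := by
  have h := (hG.1 (Sum.inl (bas v, bas v))).2
  have h2 : gen (Sum.inl (bas v, bas v)) = gE (bas v) (bas v) := by
    have h3 : linked (bas v) (bas v) := ⟨rfl, Iff.rfl⟩
    exact if_pos h3
  rwa [h2] at h

theorem FRC_gH (hG : SGen) (k l : Fin 3) : gH k l ∈ AA :=
  (hG.1 (Sum.inr (Sum.inr (Sum.inr (k, l))))).2

theorem FRC_norm_y0 (x : SS) : ‖y0 x‖ = 1 := norm_eq_of_mem_sphere (x 0)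

theorem FRC_inner (x : SS) (c : Fin 3 → ℂ) :
    inner ℂ (y0 x) (WithLp.toLp 2 c : EuclideanSpace ℂ (Fin 3)) = ∑ k, conj (y0 x k) * c k := by
  rw [PiLp.inner_apply]
  refine Finset.sum_congr rfl fun k _ => ?_
  rw [RCLike.inner_apply, mul_comm]

theorem FRC_norm_c (c : Fin 3 → ℂ) (hc : ∑ k, ‖c k‖ ^ 2 = 1) :
    ‖(WithLp.toLp 2 c : EuclideanSpace ℂ (Fin 3))‖ = 1 := by
  rw [EuclideanSpace.norm_eq]
  simp only [hc, Real.sqrt_one]

/-- the lower bound for the phase fixing number -/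
theorem FRC_r (hR3 : SR3) (hA : SAct) (θ : Anti) (x : SS) (hx : x ∈ Zst θ)
    (ξ : Fin (hh + 1) → II → ℂ) (c : Fin 3 → ℂ) (hf : IsFrame θ x ξ c) (r : ℝ) (hr : 0 < r)
    (hr' : ∑ k, conj (y0 x k) * c k = (r : ℂ)) : 7 / 25 ≤ r := by
  obtain ⟨-, -, -, -, -, -, -, -, -, -, -, -, -, hcov, -⟩ := hA
  obtain ⟨w, hw⟩ := hcov x
  obtain ⟨h1, h2, h3, h4, -⟩ := hf
  have h5 := hR3 θ x hx w hw (ξ 0) (h1 0) (h2 0) (WithLp.toLp 2 c) h3
  have h6 := FRC_geo (cc w : EuclideanSpace ℂ (Fin 3)) (y0 x) (WithLp.toLp 2 c)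
    (norm_eq_of_mem_sphere _) (FRC_norm_y0 x) (FRC_norm_c c h4) hw h5
  rw [FRC_inner, hr', Complex.norm_real, Real.norm_of_nonneg hr.le] at h6
  exact h6

/-- the matrix of `c c^*` -/
def FRC_F (θ : Anti) (k l : Fin 3) (x : SS) : ℂ :=
  ∑ i : II, ∑ j : II, RR θ x (gH k l) i j * RR θ x (gE (bas 0) (bas 0)) j i

def FRC_G (θ : Anti) (x : SS) : ℂ :=
  ∑ k : Fin 3, ∑ l : Fin 3, conj (y0 x k) * FRC_F θ k l x * y0 x l

def FRC_C (θ : Anti) (k : Fin 3) (x : SS) : ℂ :=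
  (∑ l : Fin 3, FRC_F θ k l x * y0 x l) / ((max (7 / 25) (Real.sqrt ‖FRC_G θ x‖) : ℝ) : ℂ)

theorem FRC_F_eq (θ : Anti) (x : SS) (hR : SR1b) (hx : x ∈ Zst θ)
    (ξ : Fin (hh + 1) → II → ℂ) (c : Fin 3 → ℂ) (hf : IsFrame θ x ξ c) (k l : Fin 3) :
    FRC_F θ k l x = c k * conj (c l) := by
  obtain ⟨η, hη, hM⟩ := hR θ x hx (bas 0)
  obtain ⟨h1, h2, h3, h4, -⟩ := hf
  have h5 := FRC_rank _ η (ξ 0) hη hM (h1 0) (h2 0)
  have h6 : ∀ i, ∑ j, RR θ x (gH k l) i j * ξ 0 j = c k * conj (c l) * ξ 0 i := by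
    intro i
    have := congrFun (h3 k l) i
    simpa [Matrix.mulVec, dotProduct] using this
  have h7 := h1 0
  unfold ip at h7
  unfold FRC_F
  calc ∑ i : II, ∑ j : II, RR θ x (gH k l) i j * RR θ x (gE (bas 0) (bas 0)) j i
      = ∑ i : II, (∑ j : II, RR θ x (gH k l) i j * ξ 0 j) * conj (ξ 0 i) := by
        refine Finset.sum_congr rfl fun i _ => ?_
        rw [Finset.sum_mul]
        refine Finset.sum_congr rfl fun j _ => ?_
        rw [← h5 j i]; ring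
    _ = c k * conj (c l) * ∑ i : II, conj (ξ 0 i) * ξ 0 i := by
        rw [Finset.mul_sum]
        refine Finset.sum_congr rfl fun i _ => ?_
        rw [h6]; ring
    _ = c k * conj (c l) := by rw [h7, mul_one]

theorem FRC_C_eq (hR3 : SR3) (hA : SAct) (θ : Anti) (x : SS) (hR : SR1b) (hx : x ∈ Zst θ)
    (ξ : Fin (hh + 1) → II → ℂ) (c : Fin 3 → ℂ) (hf : IsFrame θ x ξ c) (k : Fin 3) :
    FRC_C θ k x = c k := by
  obtain ⟨r, hr, hr'⟩ := hf.2.2.2.2
  have h1 := FRC_r hR3 hA θ x hx ξ c hf r hr hr'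
  have hF := FRC_F_eq θ x hR hx ξ c hf
  have hr2 : ∑ l, conj (c l) * y0 x l = (r : ℂ) := by
    have := congrArg conj hr'
    rw [map_sum, Complex.conj_ofReal] at this
    rw [← this]
    refine Finset.sum_congr rfl fun l _ => ?_
    rw [map_mul, Complex.conj_conj]; ring
  have h2 : FRC_G θ x = (r : ℂ) ^ 2 := by
    unfold FRC_G
    calc ∑ k : Fin 3, ∑ l : Fin 3, conj (y0 x k) * FRC_F θ k l x * y0 x l
        = (∑ k, conj (y0 x k) * c k) * ∑ l, conj (c l) * y0 x l := by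
          rw [Finset.sum_mul]
          refine Finset.sum_congr rfl fun k _ => ?_
          rw [Finset.mul_sum]
          refine Finset.sum_congr rfl fun l _ => ?_
          rw [hF]; ring
      _ = (r : ℂ) ^ 2 := by rw [hr', hr2]; ring
  have h3 : ∑ l : Fin 3, FRC_F θ k l x * y0 x l = c k * r := by
    rw [← hr2, Finset.mul_sum]
    refine Finset.sum_congr rfl fun l _ => ?_
    rw [hF]; ring
  have h4 : Real.sqrt ‖FRC_G θ x‖ = r := by
    rw [h2, norm_pow, Complex.norm_real, Real.norm_of_nonneg hr.le, Real.sqrt_sq hr.le]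
  unfold FRC_C
  rw [h3, h4, max_eq_right h1]
  have : (r : ℂ) ≠ 0 := by exact_mod_cast hr.ne'
  field_simp

theorem FRC_cont_y0 (k : Fin 3) : Continuous fun x : SS => y0 x k := (yf k).continuous

theorem FRC_cont_F (hRR : SRr1) (hG : SGen) (θ : Anti) (k l : Fin 3) :
    Continuous (FRC_F θ k l) := by
  unfold FRC_F
  refine continuous_finsetSum _ fun i _ => continuous_finsetSum _ fun j _ => ?_
  exact ((hRR θ).1 _ (FRC_gH hG k l) i j).mul ((hRR θ).1 _ (FRC_gE hG 0) j i)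

theorem FRC_cont_C (hRR : SRr1) (hG : SGen) (θ : Anti) (k : Fin 3) : Continuous (FRC_C θ k) := by
  have hGc : Continuous (FRC_G θ) := by
    unfold FRC_G
    refine continuous_finsetSum _ fun i _ => continuous_finsetSum _ fun j _ => ?_
    exact ((Complex.continuous_conj.comp (FRC_cont_y0 i)).mul (FRC_cont_F hRR hG θ i j)).mul
      (FRC_cont_y0 j)
  unfold FRC_C
  refine Continuous.div ?_ ?_ ?_
  · exact continuous_finsetSum _ fun l _ => (FRC_cont_F hRR hG θ k l).mul (FRC_cont_y0 l)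
  · exact Complex.continuous_ofReal.comp (continuous_const.max
      (Real.continuous_sqrt.comp hGc.norm))
  · intro x h
    have h1 : max (7 / 25) (Real.sqrt ‖FRC_G θ x‖) = 0 := by exact_mod_cast h
    have h2 := le_max_left (7 / 25) (Real.sqrt ‖FRC_G θ x‖)
    rw [h1] at h2
    norm_num at h2

theorem FRC_norm_le (ξ : II → ℂ) (h : ip ξ ξ = 1) (i : II) : ‖ξ i‖ ≤ 1 := by
  have h1 : ∑ j, ‖ξ j‖ ^ 2 = 1 := by
    have h2 : ((∑ j, ‖ξ j‖ ^ 2 : ℝ) : ℂ) = 1 := by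
      rw [← h]
      unfold ip
      push_cast
      refine Finset.sum_congr rfl fun j _ => ?_
      rw [mul_comm, RCLike.mul_conj]
      norm_cast
    exact_mod_cast h2
  have h2 : ‖ξ i‖ ^ 2 ≤ 1 := by
    rw [← h1]
    exact Finset.single_le_sum (f := fun j => ‖ξ j‖ ^ 2) (fun j _ => by positivity)
      (Finset.mem_univ i)
  have := norm_nonneg (ξ i)
  nlinarith

/-- the two estimates for the vectors -/
theorem FRC_vec (ξ ξ' : II → ℂ) (h' : ip ξ' ξ' = 1) (η : ℝ)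
    (hη : ∀ i j, ‖ξ i * conj (ξ j) - ξ' i * conj (ξ' j)‖ ≤ η) :
    (∀ i, ‖ξ' i - ip ξ ξ' * ξ i‖ ≤ cI * η) ∧ |‖ip ξ ξ'‖ - 1| ≤ cI * cI * η := by
  have hη0 : 0 ≤ η := (norm_nonneg _).trans (hη istar istar)
  have h1 : ∀ i, ‖ξ' i - ip ξ ξ' * ξ i‖ ≤ cI * η := by
    intro i
    have h2 : ξ' i - ip ξ ξ' * ξ i =
        ∑ j, (ξ' i * conj (ξ' j) - ξ i * conj (ξ j)) * ξ' j := by
      simp only [sub_mul, Finset.sum_sub_distrib]
      congr 1
      · have : ξ' i = ξ' i * ip ξ' ξ' := by rw [h', mul_one]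
        conv_lhs => rw [this]
        unfold ip
        rw [Finset.mul_sum]
        exact Finset.sum_congr rfl fun j _ => by ring
      · unfold ip
        rw [Finset.sum_mul]
        exact Finset.sum_congr rfl fun j _ => by ring
    rw [h2]
    refine (norm_sum_le _ _).trans ?_
    calc ∑ j, ‖(ξ' i * conj (ξ' j) - ξ i * conj (ξ j)) * ξ' j‖ ≤ ∑ _j : II, η := by
          refine Finset.sum_le_sum fun j _ => ?_
          rw [norm_mul, ← norm_neg]
          have h3 := hη i j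
          have h4 := FRC_norm_le ξ' h' j
          rw [neg_sub]
          calc _ ≤ η * 1 := mul_le_mul h3 h4 (norm_nonneg _) hη0
            _ = η := mul_one _
      _ = cI * η := by rw [Finset.sum_const, nsmul_eq_mul]; rfl
  refine ⟨h1, ?_⟩
  have h2 : (1 : ℂ) - ip ξ ξ' * conj (ip ξ ξ') = ∑ i, conj (ξ' i) * (ξ' i - ip ξ ξ' * ξ i) := by
    simp only [mul_sub, Finset.sum_sub_distrib]
    congr 1
    · rw [← h']; rfl
    · have : conj (ip ξ ξ') = ip ξ' ξ := by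
        unfold ip
        rw [map_sum]
        refine Finset.sum_congr rfl fun j _ => ?_
        rw [map_mul, Complex.conj_conj, mul_comm]
      rw [this]
      conv_lhs => rw [show ip ξ' ξ = ∑ i, conj (ξ' i) * ξ i from rfl]
      rw [Finset.mul_sum]
      exact Finset.sum_congr rfl fun j _ => by ring
  have h3 : ‖(1 : ℂ) - ip ξ ξ' * conj (ip ξ ξ')‖ ≤ cI * cI * η := by
    rw [h2]
    refine (norm_sum_le _ _).trans ?_
    calc ∑ i, ‖conj (ξ' i) * (ξ' i - ip ξ ξ' * ξ i)‖ ≤ ∑ _i : II, cI * η := by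
          refine Finset.sum_le_sum fun i _ => ?_
          rw [norm_mul, RCLike.norm_conj]
          have h4 := FRC_norm_le ξ' h' i
          calc _ ≤ 1 * (cI * η) := mul_le_mul h4 (h1 i) (norm_nonneg _) zero_le_one
            _ = cI * η := one_mul _
      _ = cI * cI * η := by
          rw [Finset.sum_const, nsmul_eq_mul, mul_assoc]; rfl
  have h4 : (1 : ℂ) - ip ξ ξ' * conj (ip ξ ξ') = ((1 - ‖ip ξ ξ'‖ ^ 2 : ℝ) : ℂ) := by
    rw [RCLike.mul_conj]
    push_cast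
    rfl
  rw [h4, Complex.norm_real, Real.norm_eq_abs] at h3
  have h5 : (0 : ℝ) ≤ ‖ip ξ ξ'‖ := norm_nonneg _
  refine le_trans ?_ h3
  rw [show (1 : ℝ) - ‖ip ξ ξ'‖ ^ 2 = (1 + ‖ip ξ ξ'‖) * (1 - ‖ip ξ ξ'‖) by ring, abs_mul,
    abs_sub_comm ‖ip ξ ξ'‖ 1, abs_of_nonneg (by linarith : (0 : ℝ) ≤ 1 + ‖ip ξ ξ'‖)]
  have := abs_nonneg (1 - ‖ip ξ ξ'‖)
  nlinarith

theorem sFrc (hR : SR1b) (hR3 : SR3) (hRR : SRr1) (hU : SUnc) (hA : SAct) (hG : SGen) : SFrc := by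
  intro θ ε hε
  let Φ : SS → (Fin 3 → ℂ) × (Fin (hh + 1) → II → II → ℂ) := fun x =>
    (fun k => FRC_C θ k x, fun v i j => RR θ x (gE (bas v) (bas v)) i j)
  have hΦ : Continuous Φ := by
    refine Continuous.prodMk ?_ ?_
    · exact continuous_pi fun k => FRC_cont_C hRR hG θ k
    · exact continuous_pi fun v => continuous_pi fun i => continuous_pi fun j =>
        (hRR θ).1 _ (FRC_gE hG v) i j
  have hcI : (1 : ℝ) ≤ cI := by
    have : 0 < cI := Fintype.card_pos_iff.2 ⟨istar⟩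
    exact_mod_cast this
  have hcc : (0 : ℝ) < cI * cI * 2 := by positivity
  obtain ⟨n, δ, hδ, hcl⟩ := hU.2.2 _ Φ hΦ (ε / (cI * cI * 2)) (by positivity)
  refine ⟨n, δ, hδ, fun x hx x' hx' hxx ξ c ξ' c' hf hf' => ?_⟩
  have h1 := hcl x x' hxx
  have hle : ε / (cI * cI * 2) < ε := by
    apply div_lt_self hε
    nlinarith
  have h2 : ‖(Φ x - Φ x').1‖ < ε := lt_of_le_of_lt (norm_fst_le _) (h1.trans hle)
  have h3 : ‖(Φ x - Φ x').2‖ < ε / (cI * cI * 2) := lt_of_le_of_lt (norm_snd_le _) h1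
  refine ⟨fun k => ?_, fun v => ?_⟩
  · have h4 := lt_of_le_of_lt (norm_le_pi_norm (Φ x - Φ x').1 k) h2
    have h5 : (Φ x - Φ x').1 k = FRC_C θ k x - FRC_C θ k x' := rfl
    rw [h5, FRC_C_eq hR3 hA θ x hR hx ξ c hf, FRC_C_eq hR3 hA θ x' hR hx' ξ' c' hf',
      norm_sub_rev] at h4
    exact h4
  · have h4 : ∀ i j, ‖ξ v i * conj (ξ v j) - ξ' v i * conj (ξ' v j)‖ ≤ ε / (cI * cI * 2) := by
      intro i j
      obtain ⟨η, hη, hM⟩ := hR θ x hx (bas v)
      obtain ⟨η', hη', hM'⟩ := hR θ x' hx' (bas v)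
      rw [FRC_rank _ η (ξ v) hη hM (hf.1 v) (hf.2.1 v),
        FRC_rank _ η' (ξ' v) hη' hM' (hf'.1 v) (hf'.2.1 v)]
      have h5 : ((Φ x - Φ x').2 v i) j = RR θ x (gE (bas v) (bas v)) i j -
        RR θ x' (gE (bas v) (bas v)) i j := rfl
      rw [← h5]
      exact ((norm_le_pi_norm _ j).trans ((norm_le_pi_norm _ i).trans
        (norm_le_pi_norm _ v))).trans h3.le
    obtain ⟨h5, h6⟩ := FRC_vec (ξ v) (ξ' v) (hf'.1 v) _ h4
    have h7 : (cI : ℝ) * cI * (ε / (cI * cI * 2)) = ε / 2 := by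
      field_simp
    have h8 : (cI : ℝ) * (ε / (cI * cI * 2)) ≤ ε / 2 := by
      rw [← h7]
      have : (0 : ℝ) ≤ cI * (ε / (cI * cI * 2)) := by positivity
      nlinarith
    refine ⟨fun i => ?_, ?_⟩
    · exact lt_of_le_of_lt ((h5 i).trans h8) (by linarith)
    · rw [h7] at h6
      exact lt_of_le_of_lt h6 (by linarith)

end

end Pool.OPP
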