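import Pool.Agent.H91.OPP.TTB

set_option autoImplicit false

namespace Pool.OPP

namespace IND

lemma ee_nor (h2 : S_CUPN) {X : Type} (labs : List (ℕ × (X → ZMod 3))) :
    EE labs one0 ∈ NorS X := by
  induction labs with
  | nil => exact (h2 X (fun _ => 0) 0 (NorS X).zero_mem).2.2.2.1
  | cons p labs ih => exact (h2 X p.2 _ ih).1

lemma cup2_zero {X : Type} (e : X → X → X → ℤ) (k : List X) :
    cup2 e (fun _ => (0 : ℤ)) k = 0 := by
  match k with
  | [] => rfl
  | [_] => rfl
  | [_, _] => rfl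
  | x :: y :: z :: l => simp [cup2]

lemma ee_closed (h2 : S_CUPN) (h3 : S_CUPD) {X : Type} (labs : List (ℕ × (X → ZMod 3))) :
    ∀ k, del (EE labs one0) k = 0 := by
  induction labs with
  | nil => exact (h2 X (fun _ => 0) 0 (NorS X).zero_mem).2.2.2.2
  | cons p labs ih =>
    intro k
    have h4 := (h3 X p.2).1 (EE labs one0) (ee_nor h2 labs).1 k
    change del (cup2 (e3 p.2) (EE labs one0)) k = 0
    rw [h4]
    have h5 : del (EE labs one0) = fun _ => (0 : ℤ) := funext ih
    rw [h5]
    exact cup2_zero _ _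

lemma pb_one0 {X : Type} (t : X → X) : pb t (one0 : List X → ℤ) = one0 := by
  funext l
  unfold pb
  match l with
  | [] => rfl
  | [_] => rfl
  | _ :: _ :: _ => rfl

lemma ee_inv (h3 : S_CUPD) (N : ℕ → ℕ) (J : Finset ℕ) (labs : List (ℕ × (XX N → ZMod 3)))
    (hl : ∀ p ∈ labs, LabOK N J p) (j : ℕ) (hj : j ∈ J) :
    pb (tt j) (EE labs one0) = EE labs one0 := by
  induction labs with
  | nil => exact pb_one0 _
  | cons p labs ih =>
    have h4 := ih (fun q hq => hl q (List.mem_cons_of_mem _ hq))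
    have h5 := (hl p (List.mem_cons_self)).2 j hj
    have h6 := ((h3 (XX N) p.2).2.2.2 (tt j) (if j = p.1 then 1 else 0) h5 (EE labs one0)).1
    change pb (tt j) (cup2 (e3 p.2) (EE labs one0)) = cup2 (e3 p.2) (EE labs one0)
    rw [h6, h4]

lemma eb_norm (n : ℕ) (h : 1 ≤ n) : ‖eb n 0‖ = 1 := by
  have h1 : eb n 0 = EuclideanSpace.single (⟨0, h⟩ : Fin n) (1 : ℂ) := by
    unfold eb
    ext k
    simp only [EuclideanSpace.single_apply]
    by_cases hk : (k : ℕ) = 0
    · have : k = ⟨0, h⟩ := Fin.ext hk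
      rw [if_pos hk, if_pos this]
    · have : k ≠ ⟨0, h⟩ := fun h0 => hk (by rw [h0])
      rw [if_neg hk, if_neg this]
  rw [h1, EuclideanSpace.norm_single, norm_one]

/-- evaluation at a list -/
def evl {X : Type} (l : List X) : NC X →+ ℤ :=
  AddMonoidHom.mk' (fun φ => φ.1 l) (fun _ _ => rfl)

lemma sup_mono {X : Type} {C : NC X →+ ℤ} {S S' : Set (List X)} (h : SupIn C S) (hS : S ⊆ S') :
    SupIn C S' := fun φ hφ => h φ fun l hl => hφ l (hS hl)

lemma main (h1 : S_CELL) (h2 : S_CUPN) (h3 : S_CUPD) (N : ℕ → ℕ) (J : Finset ℕ)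
    (labs : List (ℕ × (XX N → ZMod 3))) : (∀ p ∈ labs, LabOK N J p) →
    (∀ j, 2 * (labs.map Prod.fst).count j + 1 ≤ N j) → ∀ ε : ℝ, 0 < ε →
    ∃ C : NC (XX N) →+ ℤ, Good (dN (XX N)) (TN N J) C ∧
      SupIn C (Sm N (fun j => 1 + 2 * (labs.map Prod.fst).count j) ε) ∧
      ∀ φ : NC (XX N), φ.1 = EE labs one0 → ∃ k : ℤ, C φ = 1 + 3 * k := by
  induction labs with
  | nil =>
    intro _ hN ε hε
    have hN' : ∀ j, 1 ≤ N j := fun j => by simpa using hN j
    set p : XX N := fun j => ⟨eb (N j) 0, mem_sphere_zero_iff_norm.2 (eb_norm _ (hN' j))⟩ with hp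
    refine ⟨evl [p], ?_, ?_, ?_⟩
    · refine ⟨fun _ => 0, fun _ => 0, fun _ _ => 0, ?_, ?_⟩
      · intro φ
        simp only [AddMonoidHom.zero_apply, Finset.sum_const_zero]
        change del φ.1 [p] = 0
        simp only [del, sub_zero]
        exact φ.2.1
      · intro j φ
        simp
    · intro φ hφ
      apply hφ
      constructor
      · intro x hx j r hr
        rw [List.mem_singleton] at hx
        subst hx
        simp only [hp]
        unfold eb
        have hr' : (r : ℕ) ≠ 0 := by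
          simp at hr
          omega
        simp [hr']
      · intro x hx y hy j
        rw [List.mem_singleton] at hx hy
        subst hx
        subst hy
        rw [dist_self]
        exact hε.le
    · intro φ hφ
      refine ⟨0, ?_⟩
      change φ.1 [p] = 1 + 3 * 0
      rw [hφ]
      rfl
  | cons p labs ih =>
    intro hl hN ε hε
    have hcount : ∀ j, ((p :: labs).map Prod.fst).count j =
        (labs.map Prod.fst).count j + if p.1 = j then 1 else 0 := by
      intro j
      rw [List.map_cons, List.count_cons]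
      simp only [beq_iff_eq]
    obtain ⟨C, hC1, hC2, hC3⟩ := ih (fun q hq => hl q (List.mem_cons_of_mem _ hq))
      (fun j => by have := hN j; rw [hcount j] at this; omega) (ε / 2) (by linarith)
    obtain ⟨L, hL⟩ := exists_nat_gt (16 / ε)
    have hLpos : 0 < L := by
      have : (0 : ℝ) < L := lt_trans (by positivity) hL
      exact_mod_cast this
    have hL' : (8 : ℝ) / L ≤ ε / 2 := by
      have h0 : (0 : ℝ) < L := by exact_mod_cast hLpos
      rw [div_lt_iff₀ hε] at hL
      rw [div_le_div_iff₀ h0 (by norm_num)]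
      nlinarith
    have hcp : (fun j => 1 + 2 * (labs.map Prod.fst).count j) p.1 + 2 ≤ N p.1 := by
      have := hN p.1
      rw [hcount p.1, if_pos rfl] at this
      simp only
      omega
    obtain ⟨C', hC'1, hC'2, hC'3⟩ := h1 N J (fun j => 1 + 2 * (labs.map Prod.fst).count j) (ε / 2)
      p L C ⟨EE labs one0, ee_nor h2 labs⟩ (by linarith) hLpos (hl p (List.mem_cons_self)) hcp hC1
      hC2 (ee_closed h2 h3 labs)
      (fun j hj => ee_inv h3 N J labs (fun q hq => hl q (List.mem_cons_of_mem _ hq)) j hj)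
    refine ⟨C', hC'1, sup_mono hC'2 ?_, ?_⟩
    · have hupd : Function.update (fun j => 1 + 2 * (labs.map Prod.fst).count j) p.1
          ((fun j => 1 + 2 * (labs.map Prod.fst).count j) p.1 + 2) =
          fun j => 1 + 2 * ((p :: labs).map Prod.fst).count j := by
        funext j
        rw [hcount j]
        by_cases hj : j = p.1
        · subst hj
          rw [Function.update_self, if_pos rfl]
          ring
        · rw [Function.update_of_ne hj, if_neg (fun h => hj h.symm)]
          ring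
      rw [hupd]
      rintro l ⟨hl1, hl2⟩
      refine ⟨hl1, fun x hx y hy j => (hl2 x hx y hy j).trans ?_⟩
      linarith
    · intro φ hφ
      obtain ⟨k, hk⟩ := hC'3 φ hφ
      obtain ⟨k', hk'⟩ := hC3 ⟨EE labs one0, ee_nor h2 labs⟩ rfl
      refine ⟨k' + k, ?_⟩
      rw [hk, hk']
      ring

end IND

theorem ind (h1 : S_CELL) (h2 : S_CUPN) (h3 : S_CUPD) : S_IND := by
  intro N J labs hl hN ε hε
  obtain ⟨C, hC1, hC2, hC3⟩ := IND.main h1 h2 h3 N J labs hl hN ε hε
  exact ⟨C, hC1, IND.sup_mono hC2 fun l hl => hl.2, hC3⟩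

end Pool.OPP
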